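import Pool.Agent.helper15.XE.SpecC

/-!
# xe:BAD, the bad windows of the `n` in `[N, 5N/4)` (helper63)
-/

set_option autoImplicit false

namespace Pool.Agent.XE

open Finset ArithmeticFunction

/-- the centre of the window of `n` -/
noncomputable def BAD_v (N n : ℕ) : ℝ := 3 * Real.log n + 6 / (5 * (N : ℝ))

theorem BAD_supp (N : ℕ) (v : ℝ) (p : ℕ) (hN : 0 < N) (h : wv N v p ≠ 0) : |Real.log p - v| < 1 / N := by
  by_contra hc
  rw [not_lt] at hc
  apply h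
  have hN' : (0 : ℝ) < N := Nat.cast_pos.mpr hN
  unfold wv EC.tri
  rw [max_eq_left]
  have h1 : (1 : ℝ) ≤ |Real.log p - v| / (1 / N) := by
    rw [le_div_iff₀ (by positivity)]
    linarith
  linarith

/-- the logarithm grows -/
theorem BAD_log {n m : ℕ} (hn : 0 < n) (hnm : n < m) : 1 / (m : ℝ) ≤ Real.log m - Real.log n := by
  have hn' : (0 : ℝ) < n := Nat.cast_pos.mpr hn
  have hm' : (0 : ℝ) < m := Nat.cast_pos.mpr (hn.trans hnm)
  have h1 := Real.one_sub_inv_le_log_of_pos (x := (m : ℝ) / n) (by positivity)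
  rw [Real.log_div hm'.ne' hn'.ne', inv_div] at h1
  have h2 : (n : ℝ) + 1 ≤ m := by exact_mod_cast hnm
  have h3 : 1 / (m : ℝ) ≤ 1 - n / m := by
    rw [div_le_iff₀ hm', sub_mul, one_mul, div_mul_cancel₀ _ hm'.ne']
    linarith
  linarith

theorem BAD_le {N m : ℕ} (hN : 0 < N) (hm0 : 0 < m) (hm : m ≤ 5 * N / 4) : 4 / (5 * (N : ℝ)) ≤ 1 / (m : ℝ) := by
  have hN' : (0 : ℝ) < N := Nat.cast_pos.mpr hN
  have hm' : (0 : ℝ) < m := Nat.cast_pos.mpr hm0
  have h1 : 4 * m ≤ 5 * N := by omega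
  have h2 : 4 * (m : ℝ) ≤ 5 * N := by exact_mod_cast h1
  rw [div_le_div_iff₀ (by positivity) hm']
  linarith

theorem BAD_spc {N n m : ℕ} (hn : n ∈ Ico N (5 * N / 4)) (hm : m ∈ Ico N (5 * N / 4)) (hN : 0 < N) (hnm : n < m) :
    2 / (N : ℝ) ≤ BAD_v N m - BAD_v N n := by
  rw [mem_Ico] at hn hm
  have hN' : (0 : ℝ) < N := Nat.cast_pos.mpr hN
  have h1 := BAD_log (by omega : 0 < n) hnm
  have h2 := BAD_le hN (by omega : 0 < m) (by omega : m ≤ 5 * N / 4)
  have h3 : 2 / (N : ℝ) ≤ 3 * (4 / (5 * (N : ℝ))) := by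
    rw [← mul_div_assoc, div_le_div_iff₀ hN' (by positivity)]
    nlinarith
  unfold BAD_v
  linarith

theorem BAD_spc' {N n m : ℕ} (hn : n ∈ Ico N (5 * N / 4)) (hm : m ∈ Ico N (5 * N / 4)) (hN : 0 < N) (hnm : n ≠ m) :
    2 / (N : ℝ) ≤ |BAD_v N n - BAD_v N m| := by
  rcases lt_or_gt_of_ne hnm with h | h
  · rw [abs_sub_comm]
    exact (BAD_spc hn hm hN h).trans (le_abs_self _)
  · exact (BAD_spc hm hn hN h).trans (le_abs_self _)

theorem BAD_InB {N n : ℕ} (hN : 8 ≤ N) (hn : n ∈ Ico N (5 * N / 4)) : InB N (BAD_v N n) := by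
  rw [mem_Ico] at hn
  have hN0 : 0 < N := by omega
  have hN' : (0 : ℝ) < N := Nat.cast_pos.mpr hN0
  have hn' : (0 : ℝ) < n := Nat.cast_pos.mpr (by omega)
  have h8 : (8 : ℝ) ≤ N := by exact_mod_cast hN
  have h1 : Real.log N ≤ Real.log n := Real.log_le_log hN' (by exact_mod_cast hn.1)
  have h2 : 4 * n ≤ 5 * N := by omega
  have h3 : 4 * (n : ℝ) ≤ 5 * N := by exact_mod_cast h2
  have h4 : Real.log n ≤ Real.log N + 1 / 4 := by
    have h5 := Real.log_le_sub_one_of_pos (x := (n : ℝ) / N) (by positivity)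
    rw [Real.log_div hn'.ne' hN'.ne'] at h5
    have h6 : (n : ℝ) / N ≤ 5 / 4 := by
      rw [div_le_iff₀ hN']
      linarith
    linarith
  refine ⟨?_, ?_⟩
  · unfold BAD_v
    have h5 : 1 / (N : ℝ) ≤ 6 / (5 * (N : ℝ)) := by
      rw [div_le_div_iff₀ hN' (by positivity)]
      linarith
    linarith
  · unfold BAD_v
    have h5 : 6 / (5 * (N : ℝ)) ≤ 3 / 20 := by
      rw [div_le_iff₀ (by positivity)]
      linarith
    linarith

theorem BAD_sub {N n : ℕ} (hN : 8 ≤ N) (hn : n ∈ Ico N (5 * N / 4)) : GX N (BAD_v N n) ⊆ G3 n := by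
  classical
  rw [mem_Ico] at hn
  have hN0 : 0 < N := by omega
  have hN' : (0 : ℝ) < N := Nat.cast_pos.mpr hN0
  have hn0 : 0 < n := by omega
  have hn' : (0 : ℝ) < n := Nat.cast_pos.mpr hn0
  have h8 : (8 : ℝ) ≤ N := by exact_mod_cast hN
  intro p hp
  unfold GX at hp
  rw [mem_filter, Z3, mem_Ioc] at hp
  obtain ⟨⟨hp0, -⟩, hpp, hw, h30, hcf, hq⟩ := hp
  have hp' : (0 : ℝ) < p := Nat.cast_pos.mpr hp0
  have h1 := BAD_supp N _ p hN0 hw
  rw [abs_lt] at h1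
  unfold BAD_v at h1
  have h2 : 1 / (N : ℝ) < 6 / (5 * (N : ℝ)) := by
    rw [div_lt_div_iff₀ hN' (by positivity)]
    linarith
  have hlo : n ^ 3 < p := by
    have h3 : Real.log ((n : ℝ) ^ 3) < Real.log p := by
      rw [Real.log_pow]
      push_cast
      linarith [h1.1]
    have h4 := (Real.log_lt_log_iff (by positivity) hp').mp h3
    exact_mod_cast h4
  have hhi : p + 6 < (n + 1) ^ 3 := by
    by_contra hc
    rw [not_lt] at hc
    have h3 : Real.log (((n : ℝ) + 1) ^ 3) ≤ Real.log ((p : ℝ) + 6) :=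
      Real.log_le_log (by positivity) (by exact_mod_cast hc)
    rw [Real.log_pow] at h3
    push_cast at h3
    have h4 : Real.log ((p : ℝ) + 6) ≤ Real.log p + 6 / p := by
      have h5 := Real.log_le_sub_one_of_pos (x := ((p : ℝ) + 6) / p) (by positivity)
      rw [Real.log_div (by positivity) hp'.ne', add_div, div_self hp'.ne'] at h5
      linarith
    have h5 := BAD_log hn0 (Nat.lt_succ_self n)
    have h6 := BAD_le hN0 (Nat.succ_pos n) (by omega : n.succ ≤ 5 * N / 4)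
    have e1 : ((n.succ : ℕ) : ℝ) = (n : ℝ) + 1 := by push_cast; ring
    rw [e1] at h5 h6
    have h7 : 6 / (p : ℝ) ≤ 6 / (N : ℝ) ^ 3 := by
      refine div_le_div_of_nonneg_left (by norm_num) (by positivity) ?_
      have h9 : N ^ 3 ≤ p := (Nat.pow_le_pow_left hn.1 3).trans hlo.le
      exact_mod_cast h9
    have h9 : 6 / (N : ℝ) ^ 3 < 1 / (5 * (N : ℝ)) := by
      rw [div_lt_div_iff₀ (by positivity) (by positivity)]
      nlinarith [mul_pos hN' hN', mul_pos (mul_pos hN' hN') hN']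
    have h10 : 6 / (5 * (N : ℝ)) = 6 * (1 / (5 * (N : ℝ))) := by ring
    have h11 : 4 / (5 * (N : ℝ)) = 4 * (1 / (5 * (N : ℝ))) := by ring
    have h12 : 1 / (N : ℝ) = 5 * (1 / (5 * (N : ℝ))) := by field_simp
    rw [h10, h12] at h1
    rw [h11] at h6
    linarith [h1.2]
  unfold G3
  rw [mem_filter, mem_Ioo]
  refine ⟨⟨hlo, by omega⟩, hpp, hhi, h30, hcf, fun q hqp => ?_⟩
  have h3 := hq q hqp
  omega

open Classical in
theorem BAD (h1 : FN_stmt) : BAD_stmt := by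
  obtain ⟨c, hc, N₁, hF⟩ := h1
  refine ⟨c / 4, by positivity, max N₁ 8, fun N hN => ?_⟩
  have hN1 : N₁ ≤ N := (le_max_left _ _).trans hN
  have hN8 : 8 ≤ N := (le_max_right _ _).trans hN
  have hN0 : 0 < N := by omega
  have hN' : (0 : ℝ) < N := Nat.cast_pos.mpr hN0
  by_contra hcon
  rw [not_le] at hcon
  obtain ⟨S, hS⟩ : ∃ S : Finset ℕ, S = (Ico N (5 * N / 4)).filter fun n : ℕ => (#(G3 n) : ℝ) < c / 4 * (n : ℝ) ^ 2 / Real.log n ^ 2 := ⟨_, rfl⟩
  rw [← hS] at hcon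
  have hSm : ∀ n ∈ S, n ∈ Ico N (5 * N / 4) ∧ (#(G3 n) : ℝ) < c / 4 * (n : ℝ) ^ 2 / Real.log n ^ 2 := by
    intro n hn
    rw [hS, mem_filter] at hn
    exact hn
  have hinj : ∀ n ∈ S, ∀ m ∈ S, BAD_v N n = BAD_v N m → n = m := by
    intro n hn m hm h
    by_contra hne
    have h2 := BAD_spc' (hSm n hn).1 (hSm m hm).1 hN0 hne
    rw [h, sub_self, abs_zero] at h2
    have h3 : (0 : ℝ) < 2 / N := by positivity
    linarith
  have hcard : #(S.image (BAD_v N)) = #S := card_image_of_injOn fun n hn m hm h => hinj n hn m hm h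
  have hAd : AdV N (S.image (BAD_v N)) := by
    refine ⟨?_, ?_, ?_⟩
    · intro v hv
      obtain ⟨n, hn, rfl⟩ := mem_image.mp hv
      exact BAD_InB hN8 (hSm n hn).1
    · intro v hv v' hv' hne
      obtain ⟨n, hn, rfl⟩ := mem_image.mp hv
      obtain ⟨m, hm, rfl⟩ := mem_image.mp hv'
      exact BAD_spc' (hSm n hn).1 (hSm m hm).1 hN0 fun h => hne (by rw [h])
    · rw [hcard]
      exact hcon.le
  have h2 := hF N hN1 _ hAd
  rw [hcard, sum_image hinj] at h2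
  have hlogN : 0 < Real.log N := Real.log_pos (by exact_mod_cast (by omega : 1 < N))
  have h3 : ∀ n ∈ S, (#(GX N (BAD_v N n)) : ℝ) ≤ c / 4 * (25 / 16) * (N : ℝ) ^ 2 / Real.log N ^ 2 := by
    intro n hn
    obtain ⟨hn1, hn2⟩ := hSm n hn
    have h4 : (#(GX N (BAD_v N n)) : ℝ) ≤ #(G3 n) := by exact_mod_cast card_le_card (BAD_sub hN8 hn1)
    rw [mem_Ico] at hn1
    have h5 : 4 * (n : ℝ) ≤ 5 * N := by exact_mod_cast (by omega : 4 * n ≤ 5 * N)
    have h6 : Real.log N ≤ Real.log n := Real.log_le_log hN' (by exact_mod_cast hn1.1)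
    refine h4.trans (hn2.le.trans ?_)
    refine div_le_div₀ (by positivity) ?_ (by positivity) (pow_le_pow_left₀ hlogN.le h6 2)
    have h7 : (n : ℝ) ^ 2 ≤ 25 / 16 * (N : ℝ) ^ 2 := by
      have h8 := pow_le_pow_left₀ (by positivity) (by linarith : (n : ℝ) ≤ 5 / 4 * N) 2
      rw [mul_pow] at h8
      norm_num at h8
      exact h8
    calc c / 4 * (n : ℝ) ^ 2 ≤ c / 4 * (25 / 16 * (N : ℝ) ^ 2) := mul_le_mul_of_nonneg_left h7 (by positivity)
      _ = c / 4 * (25 / 16) * (N : ℝ) ^ 2 := by ring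
  have h4 := h2.trans (sum_le_sum h3)
  rw [sum_const, nsmul_eq_mul] at h4
  have hSpos : (0 : ℝ) < #S := lt_trans (Real.rpow_pos_of_pos hN' _) hcon
  have h5 : (0 : ℝ) < #S * (c * ((N : ℝ) ^ 2 / Real.log N ^ 2)) := by positivity
  have e1 : c * (#S : ℝ) * (N : ℝ) ^ 2 / Real.log N ^ 2 = #S * (c * ((N : ℝ) ^ 2 / Real.log N ^ 2)) := by ring
  have e2 : (#S : ℝ) * (c / 4 * (25 / 16) * (N : ℝ) ^ 2 / Real.log N ^ 2) = 25 / 64 * (#S * (c * ((N : ℝ) ^ 2 / Real.log N ^ 2))) := by ring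
  rw [e1, e2] at h4
  linarith

end Pool.Agent.XE
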